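import Pool.Agent.Run7.h275.RB0
import Pool.Agent.N98.SS.Serre

/-!
# Piece DEP of the project RB (interface: `Pool.Agent.Run7.h275.RB0`)
-/

set_option autoImplicit false

namespace Pool.Agent.Run7.h617.RB

open IsLocalRing Pool.Agent.W418.LU2 Pool.Agent.H918R2.Quad Pool.Agent.Run7.h275.RL
  Pool.Agent.Run7.h275.RB

section loc

variable {F : Type} [Field F]

/-- The localisation `lo A P` is the localisation at a prime ideal. -/
lemma exists_isLocalization (A P : Subring F) (hA : Loc A) (hP : P ≤ A) :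
    ∃ (_ : Algebra P (lo A P)) (q : Ideal P) (_ : q.IsPrime),
      (∀ s : P, s ∈ q ↔ NU A (s : F)) ∧ IsLocalization.AtPrime (lo A P) q := by
  let ψ : P →+* lo A P := Subring.inclusion (le_lo A P)
  let _ : Algebra P (lo A P) := ψ.toAlgebra
  have hloc : IsLocalRing (lo A P) := isLocalRing_lo hA hP
  let q : Ideal P := (maximalIdeal (lo A P)).comap (algebraMap P (lo A P))
  have hu : ∀ a : P, a ∉ q ↔ IsUnit (algebraMap P (lo A P) a) := by
    intro a
    change ¬ (algebraMap P (lo A P) a ∈ maximalIdeal (lo A P)) ↔ _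
    rw [mem_maximalIdeal, mem_nonunits_iff, not_not]
  have hprime : q.IsPrime := Ideal.IsPrime.comap _
  refine ⟨ψ.toAlgebra, q, hprime, ?_, ?_⟩
  · intro s
    have h1 := hu s
    rw [isUnit_lo_iff hP] at h1
    unfold NU
    constructor
    · intro h2 h3
      exact (h1.2 h3) h2
    · intro h2
      by_contra h3
      exact h2 (h1.1 h3)
  · exact
      { map_units := fun y => (hu y.1).1 y.2
        surj := by
          rintro ⟨z, a, ha, b, hb, hb0, hbW, rfl⟩
          refine ⟨(⟨a, ha⟩, ⟨⟨b, hb⟩, ?_⟩), ?_⟩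
          · change (⟨b, hb⟩ : P) ∉ q
            rw [hu, isUnit_lo_iff hP]
            exact ⟨hb0, hbW⟩
          · apply Subtype.ext
            change a * b⁻¹ * b = a
            rw [mul_assoc, inv_mul_cancel₀ hb0, mul_one]
        exists_of_eq := by
          intro a b h
          refine ⟨1, ?_⟩
          have h1 : a = b := by
            apply Subtype.ext
            exact congrArg (Subtype.val : lo A P → F) h
          rw [h1] }

/-- Localisations of `P` at primes contained in the centre of `A` are regular if `lo A P` is regular. -/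
theorem regular_of_lo (A P : Subring F) (hA : Loc A) (hP : P ≤ A) (hreg : IsRegularLocalRing (lo A P))
    (𝔓 : Ideal P) [h𝔓 : 𝔓.IsPrime] (hc : ∀ s ∈ 𝔓, NU A (s : F)) :
    IsRegularLocalRing (Localization.AtPrime 𝔓) := by
  obtain ⟨_, q, hq, hqm, hloc⟩ := exists_isLocalization A P hA hP
  have hle : 𝔓 ≤ q := fun s hs => (hqm s).2 (hc s hs)
  have hdisj : Disjoint (q.primeCompl : Set P) (𝔓 : Set P) := by
    rw [Set.disjoint_left]
    intro s hs hs'
    exact hs (hle hs')
  let Q : Ideal (lo A P) := 𝔓.map (algebraMap P (lo A P))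
  have hQ : Q.IsPrime := IsLocalization.isPrime_of_isPrime_disjoint q.primeCompl (lo A P) 𝔓 h𝔓 hdisj
  have hcomap : Q.comap (algebraMap P (lo A P)) = 𝔓 :=
    IsLocalization.under_map_of_isPrime_disjoint q.primeCompl (lo A P) h𝔓 hdisj
  have h1 : IsRegularLocalRing (Localization.AtPrime Q) := Pool.Agent.N98.SS.regular_localization Q
  have h2 : IsLocalization.AtPrime (Localization.AtPrime Q) (Q.comap (algebraMap P (lo A P))) :=
    IsLocalization.isLocalization_isLocalization_atPrime_isLocalization q.primeCompl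
      (Localization.AtPrime Q) Q
  have h3 : IsLocalization.AtPrime (Localization.AtPrime Q) 𝔓 := by
    convert h2 using 1
    exact hcomap.symm
  exact IsRegularLocalRing.of_ringEquiv
    (IsLocalization.algEquiv 𝔓.primeCompl (Localization.AtPrime Q) (Localization.AtPrime 𝔓)).toRingEquiv

end loc

section pres

variable {O S F : Type} [CommRing O] [CommRing S] [IsDomain S] [Field F]
  [Algebra O (FractionRing S)] [Algebra O F] {p : Pres S F} {n : ℕ} {B : Subring F}

/-- The reduction of a presentation. -/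
lemma exists_theta (hp : p.Ok O n B) : ∃ θ : p.P →+* B,
    (∀ s : p.P, Pr p.φ (s : FractionRing S) (θ s : F)) ∧ Function.Surjective θ := by
  choose w hw using fun s : p.P => hp.pr s s.2
  let θ : p.P →+* B :=
    { toFun := fun s => ⟨w s, (hw s).1⟩
      map_one' := Subtype.ext ((hw 1).2.unique Pr.one)
      map_mul' := fun a b => Subtype.ext ((hw (a * b)).2.unique ((hw a).2.mul (hw b).2))
      map_zero' := Subtype.ext ((hw 0).2.unique Pr.zero)
      map_add' := fun a b => Subtype.ext ((hw (a + b)).2.unique ((hw a).2.add (hw b).2)) }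
  refine ⟨θ, fun s => (hw s).2, ?_⟩
  rintro ⟨y, hy⟩
  have hy' : y ∈ im p.φ p.P := by rw [hp.im]; exact hy
  obtain ⟨z, hz, hzy⟩ := hy'
  exact ⟨⟨z, hz⟩, Subtype.ext ((hw ⟨z, hz⟩).2.unique hzy)⟩

/-- The kernel of the reduction is generated by the equations up to an element of `S`. -/
lemma exists_mul_mem_span (hp : p.Ok O n B) (s : p.P) (hs : Pr p.φ (s : FractionRing S) 0) :
    ∃ b : S, p.φ b ≠ 0 ∧ (⟨algebraMap S (FractionRing S) b, hp.SP b⟩ : p.P) * s ∈
      Ideal.span (Set.range fun i => (⟨p.f i, hp.fP i⟩ : p.P)) := by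
  obtain ⟨g, hg, hyg⟩ := hp.gen s hs
  choose w a b hb hab _ using hg
  let T : S := ∏ i, b i
  have hT : p.φ T ≠ 0 := by
    rw [map_prod]
    exact Finset.prod_ne_zero_iff.2 fun i _ => hb i
  have hTg : ∀ i, algebraMap S (FractionRing S) T * g i ∈ p.P := by
    intro i
    have h1 : algebraMap S (FractionRing S) T * g i =
        algebraMap S (FractionRing S) (∏ k ∈ Finset.univ.erase i, b k) *
        algebraMap S (FractionRing S) (a i) := by
      rw [← hab i]
      have h2 : T = b i * ∏ k ∈ Finset.univ.erase i, b k :=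
        (Finset.mul_prod_erase _ _ (Finset.mem_univ i)).symm
      rw [h2, map_mul]
      ring
    rw [h1]
    exact p.P.mul_mem (hp.SP _) (hp.SP _)
  refine ⟨T, hT, ?_⟩
  have h2 : (⟨algebraMap S (FractionRing S) T, hp.SP T⟩ : p.P) * s =
      ∑ i, (⟨algebraMap S (FractionRing S) T * g i, hTg i⟩ : p.P) * (⟨p.f i, hp.fP i⟩ : p.P) := by
    apply Subtype.ext
    have h3 : ((∑ i, (⟨algebraMap S (FractionRing S) T * g i, hTg i⟩ : p.P) *
        (⟨p.f i, hp.fP i⟩ : p.P) : p.P) : FractionRing S) =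
        ∑ i, algebraMap S (FractionRing S) T * g i * p.f i := map_sum p.P.subtype _ _
    rw [h3]
    change algebraMap S (FractionRing S) T * (s : FractionRing S) = _
    rw [hyg, Finset.mul_sum]
    exact Finset.sum_congr rfl fun i _ => by ring
  rw [h2]
  exact Ideal.sum_mem _ fun i _ => Ideal.mul_mem_left _ _ (Ideal.subset_span ⟨i, rfl⟩)

/-- If the equations are independent then the local ring of `B` is regular. -/
theorem regular_of_ind (hp : p.Ok O n B) (θ : p.P →+* B)
    (hθ : ∀ s : p.P, Pr p.φ (s : FractionRing S) (θ s : F)) (hθs : Function.Surjective θ)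
    (𝔭 : Ideal B) [𝔭.IsPrime] (hreg : IsRegularLocalRing (Localization.AtPrime (𝔭.comap θ)))
    (hi : Ind (fun i => algebraMap p.P (Localization.AtPrime (𝔭.comap θ)) ⟨p.f i, hp.fP i⟩)) :
    IsRegularLocalRing (Localization.AtPrime 𝔭) := by
  let R := Localization.AtPrime (𝔭.comap θ)
  let f' : Fin p.r → R := fun i => algebraMap p.P R ⟨p.f i, hp.fP i⟩
  let Θ : R →+* Localization.AtPrime 𝔭 := Localization.localRingHom (𝔭.comap θ) 𝔭 θ rfl
  have hΘ : ∀ s : p.P, Θ (algebraMap p.P R s) = algebraMap B (Localization.AtPrime 𝔭) (θ s) :=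
    fun s => Localization.localRingHom_to_map _ _ _ rfl s
  have hinj : Function.Injective (algebraMap B (Localization.AtPrime 𝔭)) :=
    IsLocalization.injective _ 𝔭.primeCompl_le_nonZeroDivisors
  have hΘs : Function.Surjective Θ := by
    intro y
    obtain ⟨b, t, rfl⟩ := IsLocalization.exists_mk'_eq 𝔭.primeCompl y
    obtain ⟨a, ha⟩ := hθs b
    obtain ⟨c, hc⟩ := hθs t
    have hcm : c ∈ (𝔭.comap θ).primeCompl := by
      intro h1
      have h2 : θ c ∈ 𝔭 := h1
      rw [hc] at h2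
      exact t.2 h2
    refine ⟨IsLocalization.mk' R a ⟨c, hcm⟩, ?_⟩
    have h1 := Localization.localRingHom_mk' (𝔭.comap θ) 𝔭 θ rfl a ⟨c, hcm⟩
    refine h1.trans ?_
    congr 1
    exact Subtype.ext hc
  have hθf : ∀ i, θ ⟨p.f i, hp.fP i⟩ = 0 := fun i =>
    Subtype.ext ((hθ ⟨p.f i, hp.fP i⟩).unique (hp.f0 i))
  have hJr : IsRegularLocalRing (R ⧸ Ideal.span (Set.range f')) := hi.regular
  have hJd : IsDomain (R ⧸ Ideal.span (Set.range f')) :=
    @Pool.Agent.H379R3.isDomain (R ⧸ Ideal.span (Set.range f')) _ hJr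
  have hJp := (Ideal.Quotient.isDomain_iff_prime _).1 hJd
  have hJk : Ideal.span (Set.range f') ≤ RingHom.ker Θ := by
    rw [Ideal.span_le]
    rintro _ ⟨i, rfl⟩
    change Θ (algebraMap p.P R ⟨p.f i, hp.fP i⟩) = 0
    rw [hΘ, hθf, map_zero]
  have hker : RingHom.ker Θ = Ideal.span (Set.range f') := by
    apply le_antisymm _ hJk
    intro y hy
    obtain ⟨s, t, rfl⟩ := IsLocalization.exists_mk'_eq (𝔭.comap θ).primeCompl y
    have h1 : Θ (algebraMap p.P R s) = 0 := by
      rw [← IsLocalization.mk'_spec R s t, map_mul, RingHom.mem_ker.1 hy, zero_mul]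
    rw [hΘ] at h1
    have h2 : θ s = 0 := hinj (h1.trans (map_zero _).symm)
    have h3 : Pr p.φ (s : FractionRing S) 0 := by
      have h4 := hθ s
      rw [h2] at h4
      exact h4
    obtain ⟨b, hb, hbs⟩ := exists_mul_mem_span hp s h3
    have h4 : algebraMap p.P R ⟨algebraMap S (FractionRing S) b, hp.SP b⟩ * algebraMap p.P R s ∈
        Ideal.span (Set.range f') := by
      rw [← map_mul]
      have h5 := Ideal.mem_map_of_mem (algebraMap p.P R) hbs
      rw [Ideal.map_span, ← Set.range_comp] at h5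
      exact h5
    have h6 : algebraMap p.P R s ∈ Ideal.span (Set.range f') := by
      rcases hJp.mem_or_mem h4 with h7 | h7
      · exfalso
        have h8 := hJk h7
        rw [RingHom.mem_ker, hΘ] at h8
        have h9 : θ ⟨algebraMap S (FractionRing S) b, hp.SP b⟩ = 0 := hinj (h8.trans (map_zero _).symm)
        have h10 := hθ ⟨algebraMap S (FractionRing S) b, hp.SP b⟩
        rw [h9] at h10
        exact hb ((Pr.alg b).unique h10)
      · exact h7
    rw [IsLocalization.mk'_eq_mul_mk'_one]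
    exact Ideal.mul_mem_right _ _ h6
  have h1 : IsRegularLocalRing (R ⧸ RingHom.ker Θ) := by
    rw [hker]
    exact hJr
  exact @IsRegularLocalRing.of_ringEquiv (R ⧸ RingHom.ker Θ) _ h1 (Localization.AtPrime 𝔭) _
    (RingHom.quotientKerEquivOfSurjective hΘs)

end pres

/-- **DEP** -/
theorem dep : S_DEP := by
  intro O S F _ _ _ _ _ _ _ p n B hp 𝔭 _ V₀ hV h𝔭 hnr
  obtain ⟨θ, hθ, hθs⟩ := exists_theta hp
  let 𝔓 : Ideal p.P := 𝔭.comap θ
  have h𝔓 : 𝔓.IsPrime := Ideal.IsPrime.comap θ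
  have hPA : p.P ≤ AA (FractionRing S) p.φ V₀ := by
    intro s hs
    exact ⟨(θ ⟨s, hs⟩ : F), hV.BV (θ ⟨s, hs⟩).2, hθ ⟨s, hs⟩⟩
  have hreg : IsRegularLocalRing (Localization.AtPrime 𝔓) := by
    refine regular_of_lo (AA (FractionRing S) p.φ V₀) p.P loc_AA hPA hV.reg 𝔓 ?_
    intro s hs
    rw [Pr.nu (hθ s)]
    have h1 := h𝔭 (θ s) hs
    rintro ⟨h2, h3⟩
    exact (val_lt_iff h2).1 h1 h3
  let R := Localization.AtPrime 𝔓
  have hmem : ∀ s : p.P, algebraMap p.P R s ∈ maximalIdeal R ↔ s ∈ 𝔓 := fun s =>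
    IsLocalization.AtPrime.to_map_mem_maximal_iff R 𝔓 s
  have hinj : Function.Injective (algebraMap p.P R) :=
    IsLocalization.injective _ 𝔓.primeCompl_le_nonZeroDivisors
  let f' : Fin p.r → R := fun i => algebraMap p.P R ⟨p.f i, hp.fP i⟩
  have hf' : ∀ i, f' i ∈ maximalIdeal R := by
    intro i
    rw [hmem]
    change θ ⟨p.f i, hp.fP i⟩ ∈ 𝔭
    have h1 : θ ⟨p.f i, hp.fP i⟩ = 0 := Subtype.ext ((hθ ⟨p.f i, hp.fP i⟩).unique (hp.f0 i))
    rw [h1]
    exact 𝔭.zero_mem
  have hni : ¬ Ind f' := fun hi => hnr (regular_of_ind hp θ hθ hθs 𝔭 hreg hi)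
  unfold Ind at hni
  push Not at hni
  obtain ⟨c, hc, i₀, hi₀⟩ := hni hf'
  -- clear the denominators
  obtain ⟨t, ht⟩ := IsLocalization.exist_integer_multiples_of_finite 𝔓.primeCompl c
  choose a' ha' using ht
  have h1 : algebraMap p.P R (∑ i, a' i * ⟨p.f i, hp.fP i⟩) ∈ (𝔓 ^ 2).map (algebraMap p.P R) := by
    rw [Ideal.map_pow, IsLocalization.AtPrime.map_eq_maximalIdeal 𝔓 R, map_sum]
    have h2 : ∑ i, algebraMap p.P R (a' i * ⟨p.f i, hp.fP i⟩) =
        algebraMap p.P R t * ∑ i, c i * f' i := by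
      rw [Finset.mul_sum]
      refine Finset.sum_congr rfl fun i _ => ?_
      rw [map_mul, ha' i, Algebra.smul_def]
      ring
    rw [h2]
    exact Ideal.mul_mem_left _ _ hc
  rw [IsLocalization.mem_map_algebraMap_iff 𝔓.primeCompl R] at h1
  obtain ⟨⟨⟨N, hN⟩, u⟩, hNu⟩ := h1
  have hNu' : (∑ i, a' i * ⟨p.f i, hp.fP i⟩) * (u : p.P) = N := by
    apply hinj
    rw [map_mul]
    exact hNu
  have ha₀ : a' i₀ ∉ 𝔓 := by
    intro h2
    rw [← hmem, ha' i₀] at h2
    rw [Algebra.smul_def] at h2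
    rcases (maximalIdeal.isMaximal R).isPrime.mem_or_mem h2 with h3 | h3
    · exact t.2 ((hmem _).1 h3)
    · exact hi₀ h3
  refine ⟨fun i => ((a' i * u : p.P) : FractionRing S), i₀, θ (a' i₀ * u), fun i => (a' i * u).2,
    hθ _, ?_, N, ?_, ?_⟩
  · intro h2
    have h3 : a' i₀ * (u : p.P) ∈ 𝔓 := h2
    rcases h𝔓.mem_or_mem h3 with h4 | h4
    · exact ha₀ h4
    · exact u.2 h4
  · rw [← hNu']
    have h3 : (((∑ i, a' i * ⟨p.f i, hp.fP i⟩) * (u : p.P) : p.P) : FractionRing S) =
        (∑ i, (a' i : FractionRing S) * p.f i) * ((u : p.P) : FractionRing S) := by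
      have h4 : ((∑ i, a' i * ⟨p.f i, hp.fP i⟩ : p.P) : FractionRing S) =
          ∑ i, (a' i : FractionRing S) * p.f i := map_sum p.P.subtype _ _
      rw [← h4]
      rfl
    rw [h3, Finset.sum_mul]
    refine Finset.sum_congr rfl fun i _ => ?_
    change _ = (a' i : FractionRing S) * ((u : p.P) : FractionRing S) * p.f i
    ring
  · have h2 : 𝔓 ≤ Ideal.span {s : p.P | ∃ w : B, w ∈ 𝔭 ∧ Pr p.φ (s : FractionRing S) (w : F)} := by
      intro s hs
      exact Ideal.subset_span ⟨θ s, hs, hθ s⟩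
    exact Ideal.pow_right_mono h2 2 hN

end Pool.Agent.Run7.h617.RB
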