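import Pool.Agent.Run7.h275.RB6
import Pool.Agent.Run7.h56.RB.STEP

/-!
# Piece STEPN of the project RB (interface: `Pool.Agent.Run7.h275.RB6`)
-/

set_option autoImplicit false

namespace Pool.Agent.Run7.h617.RB

open IsLocalRing Pool.Agent.W418.LU2 Pool.Agent.H918R2.Quad Pool.Agent.Run7.h275.RL
  Pool.Agent.Run7.h275.RB

section ord

variable {F : Type} [Field F]

lemma prod_lt_one (V : ValuationSubring F) (z : ℕ → F) (q : ℕ) (hz : ∀ i < q + 1, V.valuation (z i) < 1) :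
    V.valuation (∏ i ∈ Finset.range (q + 1), z i) < 1 := by
  induction q with
  | zero =>
    rw [zero_add, Finset.prod_range_one]
    exact hz 0 (by omega)
  | succ q ih =>
    rw [Finset.prod_range_succ, map_mul]
    exact mul_lt_one_aux (ih fun i hi => hz i (by omega)).le (hz (q + 1) (by omega))

lemma ordLe_unit (V : ValuationSubring F) {a : F} (ha : ¬ V.valuation a < 1) (q : ℕ) : OrdLe V a q :=
  fun z hz => (prod_lt_one V z q hz).trans_le (not_lt.1 ha)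

lemma ordLe_div (V : ValuationSubring F) {a e : F} (ha : V.valuation a < 1) (he : V.valuation e < 1)
    (he0 : e ≠ 0) {q : ℕ} (h : OrdLe V a q) : OrdLe V (a / e) (q - 1) := by
  rcases q with _ | q
  · exfalso
    have h1 := h (fun _ => a) fun _ _ => ha
    rw [zero_add, Finset.prod_range_one] at h1
    exact lt_irrefl _ h1
  · rw [Nat.add_sub_cancel]
    intro z hz
    have h1 := h (fun i => if i < q + 1 then z i else e) (by
      intro i _
      by_cases hi' : i < q + 1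
      · simp only [if_pos hi']
        exact hz i hi'
      · simp only [if_neg hi']
        exact he)
    rw [Finset.prod_range_succ, if_neg (lt_irrefl _)] at h1
    have h2 : ∏ i ∈ Finset.range (q + 1), (if i < q + 1 then z i else e) =
        ∏ i ∈ Finset.range (q + 1), z i :=
      Finset.prod_congr rfl fun i hi => if_pos (Finset.mem_range.1 hi)
    rw [h2, map_mul] at h1
    rw [map_div₀]
    have he1 : 0 < V.valuation e := (Valuation.pos_iff _).2 he0
    rw [lt_div_iff₀ he1]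
    exact h1

end ord

section chart

variable {O F : Type} [CommRing O] [Field F] [Algebra O F]

/-- The chart of the blowing-up with its boundary. -/
noncomputable def nn (p : NP F) {k : ℕ} (y : Fin k → F) (l : Fin k) (J : Finset (Fin p.s)) (ε : ℕ) : NP F where
  B := Subring.closure ((p.B : Set F) ∪ Set.range fun j => y j / y l)
  s := p.s + 1
  x := Fin.snoc (α := fun _ => F) (fun i => if i ∈ J then p.x i / y l else p.x i) (y l)
  m := p.m * y l ^ ε
  w := p.w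

theorem nn_ok {M₀ N₀ : Submodule O F} {c : ℕ} {p : NP F} (h : p.Ok M₀ N₀ c) (𝔭 : Ideal p.B)
    {k : ℕ} (y : Fin k → F) (hy : ∀ j, ∃ b : p.B, b ∈ 𝔭 ∧ (b : F) = y j)
    (hgen : ∀ b : p.B, b ∈ 𝔭 → ∃ d : Fin k → p.B, (b : F) = ∑ j, (d j : F) * y j)
    (l : Fin k) (hl : y l ≠ 0) (J : Finset (Fin p.s)) (hJ : ∀ i ∈ J, ∃ b : p.B, b ∈ 𝔭 ∧ (b : F) = p.x i)
    (ε : ℕ) (hε : ε = 0 ∨ (ε = 1 ∧ ∀ n ∈ N₀, ∃ b : p.B, b ∈ 𝔭 ∧ (b : F) = n / (p.w ^ c * p.m))) :
    (nn p y l J ε).Ok M₀ N₀ c := by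
  classical
  set B' : Subring F := Subring.closure ((p.B : Set F) ∪ Set.range fun j => y j / y l) with hB'
  have hBB' : p.B ≤ B' := fun b hb => Subring.subset_closure (Or.inl hb)
  have hdiv : ∀ b : p.B, b ∈ 𝔭 → (b : F) / y l ∈ B' := by
    intro b hb
    obtain ⟨d, hd⟩ := hgen b hb
    rw [hd, Finset.sum_div]
    refine Subring.sum_mem _ fun j _ => ?_
    rw [mul_div_assoc]
    exact B'.mul_mem (hBB' (d j).2) (Subring.subset_closure (Or.inr ⟨j, rfl⟩))
  have hylB : y l ∈ p.B := by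
    obtain ⟨b, -, hb⟩ := hy l
    rw [← hb]
    exact b.2
  have hsn1 : ∀ i : Fin p.s, (nn p y l J ε).x (Fin.castSucc i) = if i ∈ J then p.x i / y l else p.x i := by
    intro i
    change Fin.snoc (α := fun _ => F) (fun i => if i ∈ J then p.x i / y l else p.x i) (y l) (Fin.castSucc i) = _
    rw [Fin.snoc_castSucc]
  have hsn2 : (nn p y l J ε).x (Fin.last p.s) = y l := by
    change Fin.snoc (α := fun _ => F) (fun i => if i ∈ J then p.x i / y l else p.x i) (y l) (Fin.last p.s) = _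
    rw [Fin.snoc_last]
  refine
    { fg := Pool.Agent.Run7.h56.RB.fgo_closure h.fg _
      xB := ?_
      x0 := ?_
      mon := ?_
      wM := h.wM
      w0 := h.w0
      wB := fun m hm => hBB' (h.wB m hm)
      res := ?_ }
  · intro i
    change (nn p y l J ε).x i ∈ B'
    refine Fin.lastCases ?_ (fun i => ?_) i
    · rw [hsn2]
      exact hBB' hylB
    · rw [hsn1]
      split_ifs with hi
      · obtain ⟨b, hb, hbx⟩ := hJ i hi
        rw [← hbx]
        exact hdiv b hb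
      · exact hBB' (h.xB i)
  · intro i
    refine Fin.lastCases ?_ (fun i => ?_) i
    · rw [hsn2]
      exact hl
    · rw [hsn1]
      split_ifs with hi
      · exact div_ne_zero (h.x0 i) hl
      · exact h.x0 i
  · obtain ⟨α, hα⟩ := h.mon
    refine ⟨Fin.snoc (α := fun _ => ℕ) α ((∑ i ∈ J, α i) + ε), ?_⟩
    change p.m * y l ^ ε = ∏ i : Fin (p.s + 1), (nn p y l J ε).x i ^
      (Fin.snoc (α := fun _ => ℕ) α ((∑ i ∈ J, α i) + ε) : Fin (p.s + 1) → ℕ) i
    rw [Fin.prod_univ_castSucc]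
    simp only [Fin.snoc_castSucc, Fin.snoc_last, hsn1, hsn2]
    rw [hα, pow_add, ← Finset.prod_pow_eq_pow_sum, ← mul_assoc]
    congr 1
    have h1 : ∏ i ∈ J, y l ^ α i = ∏ i : Fin p.s, if i ∈ J then y l ^ α i else 1 := by
      rw [Finset.prod_ite_mem, Finset.univ_inter]
    rw [h1, ← Finset.prod_mul_distrib]
    refine Finset.prod_congr rfl fun i _ => ?_
    split_ifs with hi
    · rw [← mul_pow, div_mul_cancel₀ _ hl]
    · rw [mul_one]
  · intro n hn
    change n / (p.w ^ c * (p.m * y l ^ ε)) ∈ B'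
    rcases hε with rfl | ⟨rfl, hε⟩
    · rw [pow_zero, mul_one]
      exact hBB' (h.res n hn)
    · obtain ⟨b, hb, hbn⟩ := hε n hn
      rw [pow_one, ← mul_assoc, ← div_div, ← hbn]
      exact hdiv b hb

end chart

/-- **STEPN** -/
theorem stepN : S_STEPN := by
  classical
  intro hMONX O F _ _ _ _ M₀ N₀ c p h 𝔭 h𝔭
  have hnoeth : IsNoetherianRing p.B := Pool.Agent.Run7.h56.RB.fgo_noeth h.fg
  obtain ⟨k, y, hy⟩ : ∃ (k : ℕ) (y : Fin k → p.B), Submodule.span p.B (Set.range y) = 𝔭 :=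
    Submodule.fg_iff_exists_fin_generating_family.1 (IsNoetherian.noetherian 𝔭)
  have hym : ∀ j, y j ∈ 𝔭 := fun j => by
    rw [← hy]
    exact Submodule.subset_span ⟨j, rfl⟩
  have hgen : ∀ b : p.B, b ∈ 𝔭 → ∃ d : Fin k → p.B, (b : F) = ∑ j, (d j : F) * (y j : F) := by
    intro b hb
    rw [← hy] at hb
    obtain ⟨d, hd⟩ := Ideal.mem_span_range_iff_exists_fun.1 hb
    refine ⟨d, ?_⟩
    have h2 := congrArg (p.B.subtype) hd
    rw [map_sum] at h2
    exact h2.symm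
  let J : Finset (Fin p.s) := Finset.univ.filter fun i => (⟨p.x i, h.xB i⟩ : p.B) ∈ 𝔭
  have hJm : ∀ i, i ∈ J ↔ (⟨p.x i, h.xB i⟩ : p.B) ∈ 𝔭 := fun i => by
    simp [J]
  have hJ : ∀ i ∈ J, ∃ b : p.B, b ∈ 𝔭 ∧ (b : F) = p.x i := fun i hi => ⟨_, (hJm i).1 hi, rfl⟩
  -- the two cases
  obtain ⟨ε, t₁, ht₁, hε⟩ : ∃ (ε : ℕ) (t₁ : p.B), t₁ ∉ 𝔭 ∧
      ((ε = 0 ∧ ∃ n ∈ N₀, (t₁ : F) = n / (p.w ^ c * p.m)) ∨
      (ε = 1 ∧ ∀ n ∈ N₀, ∃ b : p.B, b ∈ 𝔭 ∧ (b : F) = n / (p.w ^ c * p.m))) := by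
    by_cases hc : ∀ n ∈ N₀, ∃ b : p.B, b ∈ 𝔭 ∧ (b : F) = n / (p.w ^ c * p.m)
    · exact ⟨1, 1, fun h1 => h𝔭.ne_top ((Ideal.eq_top_iff_one _).2 h1), Or.inr ⟨rfl, hc⟩⟩
    · push Not at hc
      obtain ⟨n, hn, hn'⟩ := hc
      exact ⟨0, ⟨n / (p.w ^ c * p.m), h.res n hn⟩, fun h1 => hn' _ h1 rfl, Or.inl ⟨rfl, n, hn, rfl⟩⟩
  have hε' : ε = 0 ∨ (ε = 1 ∧ ∀ n ∈ N₀, ∃ b : p.B, b ∈ 𝔭 ∧ (b : F) = n / (p.w ^ c * p.m)) := by
    rcases hε with h1 | h1
    · exact Or.inl h1.1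
    · exact Or.inr h1
  refine ⟨t₁ * ∏ i ∈ Jᶜ, (⟨p.x i, h.xB i⟩ : p.B), ?_, ?_⟩
  · intro h1
    rcases h𝔭.mem_or_mem h1 with h2 | h2
    · exact ht₁ h2
    · obtain ⟨i, hi, hi'⟩ := (h𝔭.prod_mem_iff).1 h2
      exact (Finset.mem_compl.1 hi) ((hJm i).2 hi')
  let T := {l : Fin k // (y l : F) ≠ 0}
  let e : Fin (Fintype.card T) ≃ T := (Fintype.equivFin T).symm
  refine ⟨Fintype.card T, fun l => nn p (fun j => (y j : F)) (e l).1 J ε, fun l =>
    nn_ok h 𝔭 (fun j => (y j : F)) (fun j => ⟨y j, hym j, rfl⟩) hgen (e l).1 (e l).2 J hJ ε hε', ?_⟩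
  intro V hV h𝔭V htV hRQ x hx hx0 hxV
  have hx0' : (x : F) ≠ 0 := fun h => hx0 (Subtype.ext h)
  have hBV := hV.BV
  -- the largest generator
  obtain ⟨dx, hdx⟩ := hgen x hx
  have hne : (Finset.univ : Finset (Fin k)).Nonempty := by
    rw [Finset.nonempty_iff_ne_empty]
    intro h0
    rw [h0, Finset.sum_empty] at hdx
    exact hx0' hdx
  obtain ⟨l, -, hlmax⟩ := Finset.exists_max_image Finset.univ (fun j => V.valuation (y j : F)) hne
  have hl0 : (y l : F) ≠ 0 := by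
    intro h0
    apply hx0'
    rw [hdx]
    refine Finset.sum_eq_zero fun j _ => ?_
    have h1 := hlmax j (Finset.mem_univ j)
    rw [h0, map_zero] at h1
    have h2 : V.valuation (y j : F) = 0 := le_antisymm h1 zero_le
    rw [(map_eq_zero V.valuation).1 h2, mul_zero]
  have hlj : ∀ j, (y j : F) / (y l : F) ∈ V := by
    intro j
    rw [← V.valuation_le_one_iff, map_div₀]
    exact div_le_one_of_le₀ (hlmax j (Finset.mem_univ j)) zero_le
  have hlV : ∀ b : p.B, b ∈ 𝔭 → (b : F) / (y l : F) ∈ V := by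
    intro b hb
    obtain ⟨d, hd⟩ := hgen b hb
    rw [hd, Finset.sum_div]
    refine V.toSubring.sum_mem fun j _ => ?_
    rw [mul_div_assoc]
    exact V.mul_mem _ _ (hBV (d j).2) (hlj j)
  have hBl : Subring.closure ((p.B : Set F) ∪ Set.range fun j => (y j : F) / (y l : F)) =
      Subring.closure ((p.B : Set F) ∪ {t | ∃ b : p.B, b ∈ 𝔭 ∧ t = (b : F) / (y l : F)}) :=
    Pool.Agent.Run7.h56.RB.cl_eq l (fun j => ⟨y j, hym j, rfl⟩) hgen
  -- the units
  have hunit : ∀ b : p.B, (b : F) ≠ 0 → ¬ V.valuation (b : F) < 1 → (b : F)⁻¹ ∈ V := by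
    intro b hb0 hb
    rw [val_lt_iff hb0, not_not] at hb
    exact hb
  have hle1 : ∀ b : p.B, V.valuation (b : F) ≤ 1 := fun b => (V.valuation_le_one_iff _).2 (hBV b.2)
  have htV' : ¬ V.valuation ((t₁ : F) * ((∏ i ∈ Jᶜ, (⟨p.x i, h.xB i⟩ : p.B) : p.B) : F)) < 1 := htV
  have ht₁V : ¬ V.valuation (t₁ : F) < 1 := by
    intro h1
    apply htV'
    rw [map_mul]
    exact mul_lt_one_aux' h1 (hle1 _)
  have hprod : ¬ V.valuation ((∏ i ∈ Jᶜ, (⟨p.x i, h.xB i⟩ : p.B) : p.B) : F) < 1 := by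
    intro h1
    apply htV'
    rw [map_mul]
    exact mul_lt_one_aux (hle1 _) h1
  have hxi : ∀ i, i ∉ J → ¬ V.valuation (p.x i) < 1 := by
    intro i hi h1
    apply hprod
    rw [← Finset.mul_prod_erase _ _ (Finset.mem_compl.2 hi)]
    change V.valuation (p.x i * ((∏ i ∈ Jᶜ.erase i, (⟨p.x i, h.xB i⟩ : p.B) : p.B) : F)) < 1
    rw [map_mul]
    exact mul_lt_one_aux' h1 (hle1 _)
  have hbl : lo V.toSubring (nn p (fun j => (y j : F)) l J ε).B = bl V.toSubring p.B 𝔭 (y l : F) := by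
    change lo V.toSubring (Subring.closure ((p.B : Set F) ∪ Set.range fun j => (y j : F) / (y l : F))) = _
    rw [hBl]
    rfl
  have hreg := hMONX F V.toSubring p.B (loc_V V) hBV p.s p.x h.xB hV.reg 𝔭 hRQ J hJ
    (fun i hi => hunit ⟨p.x i, h.xB i⟩ (h.x0 i) (hxi i hi)) (y l) (hym l)
    (fun h0 => hl0 (by rw [h0]; rfl)) hlV
  have hel : (e (e.symm ⟨l, hl0⟩)).1 = l := by rw [Equiv.apply_symm_apply]
  refine ⟨e.symm ⟨l, hl0⟩, ?_, ?_, ?_⟩
  · simp only [hel]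
    refine { BV := ?_, reg := ?_ }
    · change Subring.closure ((p.B : Set F) ∪ Set.range fun j => (y j : F) / (y l : F)) ≤ V.toSubring
      rw [Subring.closure_le]
      rintro t (ht | ⟨j, rfl⟩)
      · exact hBV ht
      · exact hlj j
    · rw [hbl]
      exact hreg
  · simp only [hel]
    rw [hbl]
    exact Pool.Agent.Run7.h56.RB.bl_congr (x := y l) (y := x) hBV (hym l) hx hl0 hx0' hlV hxV
  · simp only [hel]
    intro b hb
    rcases hε with ⟨rfl, n, hn, hn'⟩ | ⟨rfl, hall⟩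
    · refine ⟨n, hn, ?_⟩
      change OrdLe V (n / (p.w ^ c * (p.m * (y l : F) ^ 0))) (b - 1)
      rw [pow_zero, mul_one, ← hn']
      exact ordLe_unit V ht₁V _
    · obtain ⟨n, hn, hno⟩ := hb
      refine ⟨n, hn, ?_⟩
      change OrdLe V (n / (p.w ^ c * (p.m * (y l : F) ^ 1))) (b - 1)
      rw [pow_one, ← mul_assoc, ← div_div]
      obtain ⟨a, ha, han⟩ := hall n hn
      refine ordLe_div V ?_ (h𝔭V _ (hym l)) hl0 hno
      rw [← han]
      exact h𝔭V a ha

end Pool.Agent.Run7.h617.RB
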